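import Pool.Agent.H717R2.ON3.Defs

/-!
# Mass gap of two-dimensional O(N) models with general exponentially decaying couplings:
definitions (helper983, after helper717's proof for the nearest neighbour coupling)

Everything (`Gr`, `JJ`, `Sc`, `UU`, `WFun`, `kp`, `ball`, `fR`, `th`, `tt`, `ch`, `ka`) is taken
from `Pool.Agent.H717R2.ON3.Defs`; the multigraph `G` on the torus is now arbitrary with a
finite range `ρ` and second moment `K`.
-/

set_option autoImplicit false

noncomputable section

namespace Pool.Agent.H983R2.ONJ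

open MeasureTheory MvPolynomial Pool.Agent.H5R2.ON Pool.Agent.H717R2.ON3

open Classical in
/-- Multigraph on the torus, coupling `β` per edge, range at most `ρ`, second moments of the
couplings at most `K`. -/
structure Nice {L : ℕ} [NeZero L] {ι : Type} [Fintype ι] (G : Gr (Tor L) ι) (β ρ K : ℝ) :
    Prop where
  beta : 0 ≤ β
  range : ∀ e, tnorm (G.t e - G.s e) ≤ ρ
  moms : ∀ x, β * ∑ e ∈ Finset.univ.filter (fun e => G.s e = x),
    tnorm (G.t e - G.s e) ^ 2 ≤ K
  momt : ∀ x, β * ∑ e ∈ Finset.univ.filter (fun e => G.t e = x),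
    tnorm (G.t e - G.s e) ^ 2 ≤ K

/-- sum of the scalar products over the edges of a multigraph -/
def enG {N L : ℕ} {ι : Type} [Fintype ι] (G : Gr (Tor L) ι) (S : Conf N L) : ℝ :=
  ∑ e, inner ℝ (S (G.s e) : EuclideanSpace ℝ (Fin N)) (S (G.t e))

/-- energy for the couplings `c` (sum over ordered pairs) -/
def pS {N L : ℕ} [NeZero L] (c : Tor L × Tor L → ℝ) (S : Conf N L) : ℝ :=
  ∑ e, c e * inner ℝ (S e.1 : EuclideanSpace ℝ (Fin N)) (S e.2)

/-- Expectation in the finite volume Gibbs state with weight `exp H` in `Λ` with boundary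
condition `η`. -/
def gH {N L : ℕ} [NeZero L] (H : Conf N L → ℝ) (Λ : Finset (Tor L)) (η : Conf N L)
    (F : Conf N L → ℝ) : ℝ :=
  (∫ S, F (splice Λ S η) * Real.exp (H (splice Λ S η)) ∂(prior N L)) /
    ∫ S, Real.exp (H (splice Λ S η)) ∂(prior N L)

/-- ferromagnetic couplings bounded by `A exp (-a |x-y|)` -/
def ExpC {L : ℕ} (A a : ℝ) (c : Tor L × Tor L → ℝ) : Prop :=
  ∀ e, 0 ≤ c e ∧ c e ≤ A * Real.exp (-a * tnorm (e.2 - e.1))

/-- the multigraph with `m (x,y)` edges from `x` to `y` -/
def gJ {L : ℕ} (m : Tor L × Tor L → ℕ) : Gr (Tor L) (Σ e : Tor L × Tor L, Fin (m e)) where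
  s e := e.1.1
  t e := e.1.2

/-- The influence of the boundary condition on the spin in the centre of a ball of radius `R`
is at most `m`, for all couplings in the class `ExpC A a` on all tori with `2 R < L`. -/
def MBJ (N : ℕ) (A a R m : ℝ) : Prop :=
  ∀ (L : ℕ) [NeZero L], 2 * R < L → ∀ c : Tor L × Tor L → ℝ, ExpC A a c →
    ∀ (p : Tor L) (η : Conf N L) (i : Fin N),
    |gH (pS c) (ball p R) η (fun S => cc i (S p))| ≤ m

/-- correlation of the components `i` in the Gibbs state on the torus with couplings `c` -/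
def corJ {N L : ℕ} [NeZero L] (c : Tor L × Tor L → ℝ) (i : Fin N) (x y : Tor L) : ℝ :=
  (∫ S : Conf N L, cc i (S x) * cc i (S y) * Real.exp (pS c S) ∂(prior N L)) /
    ∫ S : Conf N L, Real.exp (pS c S) ∂(prior N L)

end Pool.Agent.H983R2.ONJ
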