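import Pool.Agent.H717R2.ON3.Mainb0
import Pool.Agent.H983R2.ONJ.GeoB

/-! # The kernel of one scale -/

set_option autoImplicit false

noncomputable section

namespace Pool.Agent.H983R2.ONJ

open MvPolynomial Pool.Agent.H5R2.ON Pool.Agent.H717R2.ON3

theorem kl_edgeJ {L : ℕ} [NeZero L] {ι : Type} [Fintype ι] {G : Gr (Tor L) ι} {β ρ K : ℝ}
    (hG : Nice G β ρ K) {R l : ℝ} (hl : 1 ≤ l) (hρ : ρ ≤ l) (hR : 100 * l ≤ R) (p : Tor L)
    (e : ι) : kl R p l (G.s e) (G.t e) = grad G (fR R p) e := by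
  have h := hG.range e
  rw [tnorm_sub_comm] at h
  exact kl_near hl hR p (h.trans hρ)

end Pool.Agent.H983R2.ONJ
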