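import Pool.Agent.H983R2.ONJ.Per

/-! # The model with a general coupling: definitions used in the final statement (helper983) -/

set_option autoImplicit false

noncomputable section

namespace Pool.Agent.H983R2.ONJ

open MeasureTheory Pool.Agent.H5R2.ON

/-- Admissible coupling: `J m ≥ 0` for `m ≠ 0` and `|J m| ≤ A exp (-a |m|)`. -/
structure Admissible (J : ℤ × ℤ → ℝ) : Prop where
  nonneg : ∀ m, m ≠ 0 → 0 ≤ J m
  decay : ∃ A a : ℝ, 0 < a ∧ ∀ m, |J m| ≤ A * Real.exp (-a * znorm m)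

/-- `∑_{x,y} J(x-y) S_x · S_y` on the torus `(ℤ/L)²` (`J` periodised), minus the energy. -/
def enJ {N : ℕ} (L : ℕ) [NeZero L] (J : ℤ × ℤ → ℝ) (S : Conf N L) : ℝ :=
  ∑ x : Tor L, ∑ y : Tor L, Jper L J (x - y) *
    inner ℝ (S x : EuclideanSpace ℝ (Fin N)) (S y)

/-- The Gibbs expectation of `F` on the torus `(ℤ/L)²` (periodic boundary conditions) at inverse
temperature `β`. -/
def gibbs {N : ℕ} (L : ℕ) [NeZero L] (J : ℤ × ℤ → ℝ) (β : ℝ) (F : Conf N L → ℝ) : ℝ :=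
  (∫ S, F S * Real.exp (β * enJ L J S) ∂(prior N L)) /
    ∫ S, Real.exp (β * enJ L J S) ∂(prior N L)

/-- The two point function `⟨S_x · S_y⟩` on the torus. -/
def corr (N L : ℕ) [NeZero L] (J : ℤ × ℤ → ℝ) (β : ℝ) (x y : Tor L) : ℝ :=
  gibbs (N := N) L J β fun S => inner ℝ (S x : EuclideanSpace ℝ (Fin N)) (S y)

/-- `G` is the two point function `x ↦ ⟨S_0 · S_x⟩(β)` of an infinite volume limit: the limit of
the two point functions along some sequence of tori whose side lengths tend to infinity. -/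
def IsLimitCorr (N : ℕ) (J : ℤ × ℤ → ℝ) (β : ℝ) (G : ℤ × ℤ → ℝ) : Prop :=
  ∃ l : ℕ → ℕ, Filter.Tendsto l Filter.atTop Filter.atTop ∧ ∀ x : ℤ × ℤ,
    Filter.Tendsto (fun n => corr N (l n + 1) J β 0 ((x.1 : ZMod (l n + 1)), (x.2 : ZMod (l n + 1))))
      Filter.atTop (nhds (G x))

end Pool.Agent.H983R2.ONJ
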