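import Pool.Agent.H983R2.ONJ.Defs
import Pool.Agent.H5R2.ON.Dist

/-! # Periodised couplings (helper983) -/

set_option autoImplicit false

noncomputable section

namespace Pool.Agent.H983R2.ONJ

open MeasureTheory Pool.Agent.H5R2.ON Pool.Agent.H717R2.ON3

/-- The Euclidean norm on `ℤ²`. -/
def znorm (m : ℤ × ℤ) : ℝ := Real.sqrt ((m.1 : ℝ) ^ 2 + (m.2 : ℝ) ^ 2)

/-- Periodisation of `J` on the torus `(ℤ/L)²`: the sum of `J` over all integer points which
reduce to `x` modulo `L`. -/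
def Jper (L : ℕ) (J : ℤ × ℤ → ℝ) (x : Tor L) : ℝ :=
  ∑' k : ℤ × ℤ, J (x.1.valMinAbs + L * k.1, x.2.valMinAbs + L * k.2)

theorem shift_ge {L : ℕ} [NeZero L] (x : ZMod L) (k : ℤ) :
    |(x.valMinAbs : ℝ)| ≤ |((x.valMinAbs + L * k : ℤ) : ℝ)| ∧
      (1 / 2 : ℝ) * |(k : ℝ)| ≤ |((x.valMinAbs + L * k : ℤ) : ℝ)| := by
  have hL : (1 : ℝ) ≤ L := by
    have := Nat.pos_of_ne_zero (NeZero.ne L)
    exact_mod_cast this
  have h := x.valMinAbs_mem_Ioc
  have h1 : ((-(L : ℤ) : ℤ) : ℝ) < ((x.valMinAbs * 2 : ℤ) : ℝ) := by exact_mod_cast h.1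
  have h2 : ((x.valMinAbs * 2 : ℤ) : ℝ) ≤ ((L : ℤ) : ℝ) := by exact_mod_cast h.2
  push_cast at h1 h2 ⊢
  set v : ℝ := (x.valMinAbs : ℝ)
  have hv : |v| ≤ L / 2 := by
    rw [abs_le]; constructor <;> linarith
  by_cases hk : k = 0
  · subst hk
    simp
  · have hk1 : (1 : ℝ) ≤ |(k : ℝ)| := by
      have : 1 ≤ |k| := Int.one_le_abs hk
      exact_mod_cast this
    have h3 : (L : ℝ) * |(k : ℝ)| - |v| ≤ |v + L * k| := by
      have h4 : |(L : ℝ) * k| = L * |(k : ℝ)| := by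
        rw [abs_mul, abs_of_nonneg (by linarith)]
      have h5 := abs_sub_abs_le_abs_sub ((L : ℝ) * k) (-v)
      rw [abs_neg, h4, sub_neg_eq_add, add_comm ((L : ℝ) * k) v] at h5
      exact h5
    have h6 : (L : ℝ) * 1 ≤ L * |(k : ℝ)| := by nlinarith
    constructor
    · nlinarith
    · nlinarith

theorem znorm_shift {L : ℕ} [NeZero L] (x : Tor L) (k : ℤ × ℤ) :
    tnorm x ≤ znorm (x.1.valMinAbs + L * k.1, x.2.valMinAbs + L * k.2) ∧
      (1 / 2 : ℝ) * znorm k ≤ znorm (x.1.valMinAbs + L * k.1, x.2.valMinAbs + L * k.2) := by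
  have h1 := shift_ge x.1 k.1
  have h2 := shift_ge x.2 k.2
  constructor
  · unfold tnorm znorm
    apply Real.sqrt_le_sqrt
    exact add_le_add (sq_le_sq.2 h1.1) (sq_le_sq.2 h2.1)
  · have : (1 / 2 : ℝ) * znorm k = Real.sqrt ((1 / 2 * (k.1 : ℝ)) ^ 2 + (1 / 2 * (k.2 : ℝ)) ^ 2) := by
      unfold znorm
      rw [show (1 / 2 * (k.1 : ℝ)) ^ 2 + (1 / 2 * (k.2 : ℝ)) ^ 2
        = (1 / 2) ^ 2 * ((k.1 : ℝ) ^ 2 + (k.2 : ℝ) ^ 2) by ring]
      rw [Real.sqrt_mul (by positivity), Real.sqrt_sq (by norm_num)]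
    rw [this]
    unfold znorm
    apply Real.sqrt_le_sqrt
    refine add_le_add (sq_le_sq.2 ?_) (sq_le_sq.2 ?_)
    · rw [abs_mul, abs_of_nonneg (by norm_num : (0:ℝ) ≤ 1 / 2)]
      exact h1.2
    · rw [abs_mul, abs_of_nonneg (by norm_num : (0:ℝ) ≤ 1 / 2)]
      exact h2.2

theorem summable_exp_int (b : ℝ) (hb : 0 < b) :
    Summable fun k : ℤ => Real.exp (-b * |(k : ℝ)|) := by
  have h : Summable fun n : ℕ => Real.exp (-b * (n : ℝ)) := by
    have := Real.summable_exp_nat_mul_iff (a := -b)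
    simp only [mul_comm] at this ⊢
    exact this.2 (by linarith)
  refine Summable.of_nat_of_neg ?_ ?_
  · refine h.congr fun n => ?_
    simp
  · refine h.congr fun n => ?_
    simp

theorem summable_exp_znorm (b : ℝ) (hb : 0 < b) :
    Summable fun k : ℤ × ℤ => Real.exp (-b * znorm k) := by
  have h := summable_exp_int (b / 2) (by linarith)
  have h2 := h.mul_of_nonneg h (fun k => (Real.exp_pos _).le) (fun k => (Real.exp_pos _).le)
  refine Summable.of_nonneg_of_le (fun k => (Real.exp_pos _).le) (fun k => ?_) h2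
  rw [← Real.exp_add]
  apply Real.exp_le_exp.2
  have h3 : |(k.1 : ℝ)| ≤ znorm k := by
    unfold znorm
    rw [← Real.sqrt_sq_eq_abs]
    exact Real.sqrt_le_sqrt (by nlinarith [sq_nonneg (k.2 : ℝ)])
  have h4 : |(k.2 : ℝ)| ≤ znorm k := by
    unfold znorm
    rw [← Real.sqrt_sq_eq_abs]
    exact Real.sqrt_le_sqrt (by nlinarith [sq_nonneg (k.1 : ℝ)])
  nlinarith

theorem summable_Jper {L : ℕ} [NeZero L] {J : ℤ × ℤ → ℝ} {A a : ℝ} (ha : 0 < a)
    (hJ : ∀ m, |J m| ≤ A * Real.exp (-a * znorm m)) (x : Tor L) :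
    Summable fun k : ℤ × ℤ => J (x.1.valMinAbs + L * k.1, x.2.valMinAbs + L * k.2) := by
  have hA : 0 ≤ A := by
    have := (abs_nonneg _).trans (hJ 0)
    exact nonneg_of_mul_nonneg_left this (Real.exp_pos _)
  refine Summable.of_norm_bounded
    (g := fun k : ℤ × ℤ => A * Real.exp (-(a / 2) * znorm k)) ?_ ?_
  · exact (summable_exp_znorm (a / 2) (by linarith)).mul_left A
  · intro k
    rw [Real.norm_eq_abs]
    refine (hJ _).trans (mul_le_mul_of_nonneg_left (Real.exp_le_exp.2 ?_) hA)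
    have := (znorm_shift x k).2
    nlinarith

/-- uniform bound for the periodised coupling -/
theorem Jper_le {J : ℤ × ℤ → ℝ} {A a : ℝ} (ha : 0 < a)
    (hJ : ∀ m, |J m| ≤ A * Real.exp (-a * znorm m)) : ∃ A' : ℝ, 0 ≤ A' ∧
      ∀ (L : ℕ) [NeZero L] (x : Tor L), Jper L J x ≤ A' * Real.exp (-(a / 2) * tnorm x) := by
  have hA : 0 ≤ A := by
    have := (abs_nonneg _).trans (hJ 0)
    exact nonneg_of_mul_nonneg_left this (Real.exp_pos _)
  have hs := summable_exp_znorm (a / 4) (by linarith)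
  refine ⟨A * ∑' k : ℤ × ℤ, Real.exp (-(a / 4) * znorm k),
    mul_nonneg hA (tsum_nonneg fun k => (Real.exp_pos _).le), ?_⟩
  intro L _ x
  have h1 : Jper L J x ≤ ∑' k : ℤ × ℤ, A * Real.exp (-(a / 2) * tnorm x) *
      Real.exp (-(a / 4) * znorm k) := by
    unfold Jper
    refine (summable_Jper ha hJ x).tsum_le_tsum (fun k => ?_) (hs.mul_left _)
    refine (le_abs_self _).trans ((hJ _).trans ?_)
    rw [mul_assoc, ← Real.exp_add]
    refine mul_le_mul_of_nonneg_left (Real.exp_le_exp.2 ?_) hA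
    have h1 := (znorm_shift x k).1
    have h2 := (znorm_shift x k).2
    nlinarith
  refine h1.trans (le_of_eq ?_)
  rw [tsum_mul_left]
  ring

theorem Jper_nonneg {L : ℕ} [NeZero L] {J : ℤ × ℤ → ℝ} (hJ : ∀ m, m ≠ 0 → 0 ≤ J m)
    {x : Tor L} (hx : x ≠ 0) : 0 ≤ Jper L J x := by
  unfold Jper
  refine tsum_nonneg fun k => hJ _ fun h => hx ?_
  rw [Prod.mk_eq_zero] at h
  have h1 : ((x.1.valMinAbs + L * k.1 : ℤ) : ZMod L) = 0 := by rw [h.1]; simp
  have h2 : ((x.2.valMinAbs + L * k.2 : ℤ) : ZMod L) = 0 := by rw [h.2]; simp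
  push_cast at h1 h2
  simp only [ZMod.coe_valMinAbs, CharP.cast_eq_zero, zero_mul, add_zero] at h1 h2
  exact Prod.ext h1 h2

end Pool.Agent.H983R2.ONJ
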